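import Mathlib
import Pool.Agent.Q28.UniEq

/-!
For every `d ≥ 2` (in particular for every `d ≥ 3`) there is a finite solvable group `G` of derived
length exactly `d` and a unimodular equation over `G` without solutions in any group `H ⊇ G` with
`H^{(d)} = 1`.
-/

namespace Pool.Agent.Results.MP_82f72d_al.UnimodularAllLengths

open scoped Monoid.Coprod

universe u

/-- An equation over `G` in one unknown: an element of the free product of `G` and the infinite
cyclic group generated by the unknown `x` (the element `Multiplicative.ofAdd 1`). -/
abbrev Equation (G : Type) [Group G] : Type := Monoid.Coprod G (Multiplicative ℤ)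

/-- The exponent sum of the unknown: the image under the homomorphism to `ℤ` killing `G` and
sending `x` to `1`. -/
def expSum {G : Type} [Group G] (w : Equation G) : ℤ :=
  Multiplicative.toAdd ((Monoid.Coprod.snd : Equation G →* Multiplicative ℤ) w)

/-- A unimodular equation: the exponent sum of the unknown is `1` or `-1`. -/
def Unimodular {G : Type} [Group G] (w : Equation G) : Prop := expSum w = 1 ∨ expSum w = -1

/-- The value `w(h)` in `H` for `h : H`, where `G` is mapped to `H` by `j`. -/
def value {G : Type} [Group G] {H : Type u} [Group H] (j : G →* H) (h : H) (w : Equation G) : H :=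
  Monoid.Coprod.lift j (zpowersHom H h) w

/-- `G` is solvable of derived length exactly `d`: `d` is the least `k` with `G^{(k)} = 1`. -/
def HasDerivedLength (G : Type u) [Group G] (d : ℕ) : Prop :=
  IsLeast {k | derivedSeries G k = ⊥} d

/-- For every `d ≥ 2` there are a finite group `G` of derived length exactly `d` and a unimodular
equation over `G` that has no solution in any group `H` of derived length at most `d` into which
`G` embeds. -/
theorem result (d : ℕ) (hd : 2 ≤ d) :
    ∃ (G : Type) (_ : Group G), Finite G ∧ HasDerivedLength G d ∧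
      ∃ w : Equation G, Unimodular w ∧
        ∀ (H : Type u) [Group H], derivedSeries H d = ⊥ →
          ∀ j : G →* H, Function.Injective j → ¬ ∃ h : H, value j h w = 1 := by
  obtain ⟨m, rfl⟩ : ∃ m, d = m + 2 := ⟨d - 2, by omega⟩
  obtain ⟨G, hG, hfin, hder, a, ha, c, hc, ha6, hc7, hc1, hca⟩ := Q28.UniEq.exists_good m
  refine ⟨G, hG, hfin, ⟨hder, ?_⟩, ?_⟩
  · intro k hk
    have hk' : derivedSeries G k = ⊥ := hk
    by_contra hlt
    have h1 : c ∈ derivedSeries G k := derivedSeries_antitone G (by omega) hc
    rw [hk', Subgroup.mem_bot] at h1
    exact hc1 h1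
  · let X : Equation G := Monoid.Coprod.inr (Multiplicative.ofAdd 1)
    let A : Equation G := Monoid.Coprod.inl a
    let C : Equation G := Monoid.Coprod.inl c
    refine ⟨X * (A⁻¹ * X⁻¹ * A) * (A⁻¹ * A⁻¹ * X * A * A) * C⁻¹, Or.inl ?_, ?_⟩
    · simp [expSum, X, A, C]
    · rintro H _ hH j hj ⟨h, hh⟩
      have hX : Monoid.Coprod.lift j (zpowersHom H h) X = h := by
        simp [X, zpowersHom_apply]
      have hA : Monoid.Coprod.lift j (zpowersHom H h) A = j a :=
        Monoid.Coprod.lift_apply_inl _ _ _
      have hC : Monoid.Coprod.lift j (zpowersHom H h) C = j c :=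
        Monoid.Coprod.lift_apply_inl _ _ _
      simp only [value, map_mul, map_inv, hX, hA, hC] at hh
      have key := Q28.UniEq.no_solution m hH (j a) (j c) h
        (map_derivedSeries_le_derivedSeries j m (Subgroup.mem_map_of_mem j ha))
        (map_derivedSeries_le_derivedSeries j (m + 1) (Subgroup.mem_map_of_mem j hc))
        (by rw [← map_pow, ha6, map_one]) (by rw [← map_pow, hc7, map_one])
        (by rw [← map_inv, ← map_mul, ← map_mul, hca, map_pow])
        (mul_inv_eq_one.1 hh)
      exact hc1 (hj (by rw [key, map_one]))

end Pool.Agent.Results.MP_82f72d_al.UnimodularAllLengths
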